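import Pool.Agent.N868.VS.Main
import Pool.Agent.N868.VS.Three

/-!
# `S_PATH` (job D'): critical points and paths of the vertices of weight `0`, and the full statement
(helper702, for the project of helper561; an addition to the files of helper868)
-/

set_option autoImplicit false

namespace Pool.Agent.N702.VS

open Finset Filter Topology Metric
open Pool.Agent.W711.HT (bet)
open Pool.Agent.N561
open Pool.Agent.N868.VS
open scoped Real

lemma Li_lt {s t : ℝ} (h0 : -(π / 2) < s) (hst : s < t) (ht : t < π / 2) : Li s < Li t :=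
  Real.arsinh_lt_arsinh.2 (Real.tan_lt_tan_of_lt_of_lt_pi_div_two h0 ht hst)

/-- strict form of `J_le_bet` -/
lemma J_lt_bet {θ : ℝ} (h0 : 0 < θ) (h1 : θ < π / 3) : J θ < θ * bet := by
  have hpi := Real.pi_pos
  have e1 := J_sub_le (a := 0) (b := θ / 2) le_rfl (by linarith) (by linarith)
  have e2 := J_sub_le (a := θ / 2) (b := θ) (by linarith) (by linarith) (by linarith)
  have e3 := Li_lt (s := θ / 2) (t := θ) (by linarith) (by linarith) (by linarith)
  rw [J_zero] at e1
  have e4 : J θ < θ * Li θ := by nlinarith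
  have e5 := J_sub_ge (a := θ) (b := π / 3) h0.le h1.le (by linarith)
  rw [J_third] at e5
  have e6 : (π / 3 - θ) * J θ ≤ (π / 3 - θ) * (θ * Li θ) :=
    mul_le_mul_of_nonneg_left e4.le (by linarith)
  have e7 : θ * J θ < θ * (θ * Li θ) := mul_lt_mul_of_pos_left e4 h0
  have e8 : θ * ((π / 3 - θ) * Li θ) ≤ θ * (π / 3 * bet - J θ) := mul_le_mul_of_nonneg_left e5 h0.le
  -- `(π/3) J θ < (π/3) θ bet`
  have e9 : (π / 3) * J θ < (π / 3) * (θ * bet) := by
    rcases eq_or_lt_of_le e6 with h | h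
    · have h2 : (π / 3 - θ) * (J θ - θ * Li θ) = 0 := by linarith
      rcases mul_eq_zero.1 h2 with h3 | h3
      · linarith
      · linarith
    · linarith
  exact lt_of_mul_lt_mul_left e9 (by positivity)

/-- weight `0` and valence at least four: the critical point is on the imaginary axis -/
theorem path0 (hS : S_SF) : ∀ n : ℕ, 4 ≤ n →
    ∃ (z : ℂ) (x₁ x₂ y₁ : ℝ), PathD n 0 z x₁ x₂ y₁ := by
  intro n hn
  have hpi := Real.pi_gt_d4
  have hpi2 := Real.pi_lt_d4
  have hn4 : (4:ℝ) ≤ n := by exact_mod_cast hn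
  have hn0 : (0:ℝ) < n := by linarith
  have hθ0 : 0 < π / n := by positivity
  have hpn : π / n ≤ π / 4 := div_le_div_of_nonneg_left (by linarith) (by norm_num) hn4
  obtain ⟨y, hy⟩ : ∃ y : ℝ, y = Real.arsinh (Real.tan (π / n)) := ⟨_, rfl⟩
  have hsy : Real.sinh y = Real.tan (π / n) := by rw [hy, Real.sinh_arsinh]
  have htp : 0 < Real.tan (π / n) := Real.tan_pos_of_pos_of_lt_pi_div_two hθ0 (by linarith)
  have hy0 : 0 < y := by rw [hy, Real.arsinh_pos_iff]; exact htp
  have hs1 : Real.sinh y ≤ 1 := by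
    rw [hsy, ← Real.tan_pi_div_four]
    exact tan_mono' hθ0.le hpn (by linarith)
  have hy2 : y < 39 / 40 := lt_of_sinh (s := 101 / 100) (by norm_num) (by linarith) (by norm_num)
  have hat : Real.arctan (Real.sinh y / Real.cos 0) = π / n := by
    rw [Real.cos_zero, div_one, hsy]
    exact Real.arctan_tan (by linarith) (by linarith)
  have h00 : |(0:ℝ)| < π / 2 := by rw [abs_zero]; linarith
  have c1 : (0:ℝ) * y = n * Real.artanh (Real.sin 0 / Real.cosh y) := by
    rw [Real.sin_zero, zero_div, Real.artanh_zero]; ring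
  -- the value at the critical point
  have p2 : -(π * bet) < W n 0 0 y := by
    have h2 := W_ge (n := n) (b := 0) (x := 0) (θ := π / n) hn0.le h00
      (by field_simp; ring) hθ0.le (by linarith) y
    rw [J_zero, Real.cos_zero, Le_one, zero_add] at h2
    have h3 := J_lt_bet (θ := π / n) hθ0 (by linarith)
    have h4 : (n : ℝ) * (π / n * bet) = π * bet := by field_simp
    have h5 := mul_lt_mul_of_pos_left h3 hn0
    linarith
  have p1 : -n * J (19 / 20) < W n 0 0 y := by
    have h1 := J_four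
    have h2 : 0 ≤ J (19 / 20) := by
      have := J_ge (t := 19 / 20) (by norm_num) (by linarith)
      norm_num at this
      linarith
    nlinarith
  have G2 : -1 < Real.cos (2 * (19 / 20)) * Real.cosh (2 * y) :=
    G_of (S := 1) cos_190 (by norm_num) hy0 hs1 (by norm_num)
  have hev : ∀ x y' : ℝ, W n 0 (-x) y' = W n 0 x y' := by
    intro x y'
    rw [W_neg]
    ring
  have hm : |(19 / 20 : ℝ)| < π / 2 := by rw [abs_of_pos (by norm_num)]; linarith
  have hl : ∀ t : ℝ, |t| < π / 2 → t ≠ 0 → W n 0 t y < W n 0 0 y := fun t ht hne =>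
    W_line hS hn0 h00 c1 ht hne
  have hm2 : W n 0 (19 / 20) y < W n 0 0 y := hl _ hm (by norm_num)
  -- comparison of `Vr` by `W`
  have hV : Vr n 0 (((2 * 0 : ℝ) : ℂ) + ((2 * y : ℝ) : ℂ) * Complex.I) =
      n * (2 * bet) + 2 / π * W n 0 0 y := by
    have := Vr_W hS n 0 h00 y
    rwa [Int.cast_zero, neg_zero] at this
  have hpp : 0 < 2 / π := by positivity
  have key : ∀ X Y : ℝ, |X| < π → W n 0 (X / 2) (Y / 2) < W n 0 0 y →
      Vr n 0 ((X : ℂ) + (Y : ℂ) * Complex.I) <
        Vr n 0 (((2 * 0 : ℝ) : ℂ) + ((2 * y : ℝ) : ℂ) * Complex.I) := by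
    intro X Y hX hW
    rw [Vr_W' hS n 0 hX Y, hV, Int.cast_zero, neg_zero]
    have := mul_lt_mul_of_pos_left hW hpp
    linarith
  have s1 : ∀ y' : ℝ, 0 < y' → y' ≤ y → W n 0 (19 / 20) y' < W n 0 0 y := by
    intro y' h1 h2
    refine lt_of_le_of_lt (W_le_max hn0.le hm h1.le h2) ?_
    rw [max_lt_iff, W_zero]
    exact ⟨p1, hm2⟩
  have er : ((((2 * 0 : ℝ) : ℂ) + ((2 * y : ℝ) : ℂ) * Complex.I)).re = 0 := by simp
  have ei : ((((2 * 0 : ℝ) : ℂ) + ((2 * y : ℝ) : ℂ) * Complex.I)).im = 2 * y := by simp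
  have side : ∀ Y : ℝ, 0 < Y → Y ≤ 2 * y →
      Vr n 0 (((2 * (19 / 20) : ℝ) : ℂ) + (Y : ℂ) * Complex.I) <
        Vr n 0 (((2 * 0 : ℝ) : ℂ) + ((2 * y : ℝ) : ℂ) * Complex.I) ∧
      Vr n 0 (-((2 * (19 / 20) : ℝ) : ℂ) + (Y : ℂ) * Complex.I) <
        Vr n 0 (((2 * 0 : ℝ) : ℂ) + ((2 * y : ℝ) : ℂ) * Complex.I) := by
    intro Y h1 h2
    have h3 := s1 (Y / 2) (by linarith) (by linarith)
    constructor
    · refine key (2 * (19 / 20)) Y (abs_lt.2 ⟨by linarith, by linarith⟩) ?_
      rwa [show (2 * (19 / 20) : ℝ) / 2 = 19 / 20 by ring]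
    · have h4 := key (-(2 * (19 / 20))) Y (abs_lt.2 ⟨by linarith, by linarith⟩) (by
        rw [show -(2 * (19 / 20) : ℝ) / 2 = -(19 / 20) by ring, hev]
        exact h3)
      rw [Complex.ofReal_neg] at h4
      exact h4
  refine ⟨((2 * 0 : ℝ) : ℂ) + ((2 * y : ℝ) : ℂ) * Complex.I, 2 * (19 / 20), 2 * (19 / 20), 2 * y,
    ?_, ?_, ?_, ?_, ?_, ?_, ?_, ?_, ?_, ?_, ?_, ?_⟩
  · refine GG_of (X := 2 * (19 / 20)) (Y := 2 * y) ?_ (by norm_num) (by linarith) le_rfl
      (by linarith) G2
    rw [mul_zero, abs_zero]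
    norm_num
  · rw [er]
  · -- the critical point
    have hp : (π : ℂ) ≠ 0 := by exact_mod_cast Real.pi_ne_zero
    have hnc : (n : ℂ) ≠ 0 := by exact_mod_cast hn0.ne'
    have e0 : (((2 * 0 : ℝ) : ℂ) + ((2 * y : ℝ) : ℂ) * Complex.I) / 2 =
        ((0 : ℝ) : ℂ) + (y : ℂ) * Complex.I := by
      push_cast
      ring
    have er' : (((0 : ℝ) : ℂ) + (y : ℂ) * Complex.I).re = 0 := by simp
    have ei' : (((0 : ℝ) : ℂ) + (y : ℂ) * Complex.I).im = y := by simp
    have h1 := hS.1 (((0 : ℝ) : ℂ) + (y : ℂ) * Complex.I) (by rw [er']; exact h00)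
    rw [er', ei', Real.sin_zero, zero_div, Real.artanh_zero, hat] at h1
    have h2 : gdi (((0 : ℝ) : ℂ) + (y : ℂ) * Complex.I) = ((π / n : ℝ) : ℂ) * Complex.I := by
      rw [← h1.2.2]
      apply Complex.ext
      · rw [h1.2.1]; simp
      · simp
    rw [e0, h2]
    push_cast
    field_simp
    ring
  · rw [er, ei]
    exact ⟨by norm_num, le_rfl, by norm_num, by linarith, le_rfl⟩
  · intro X Y hX h1 h2
    exact GG_of hX (by norm_num) h1 h2 (by linarith) G2
  · intro X Y hX h1 h2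
    rw [ei] at h2
    exact GG_of hX (by norm_num) (by linarith) h2 (by linarith) G2
  · rw [hV, sx_J hm]
    have := mul_lt_mul_of_pos_left p1 hpp
    have e : (n : ℝ) * (2 * bet - 2 / π * J (19 / 20)) =
      n * (2 * bet) + 2 / π * (-n * J (19 / 20)) := by ring
    rw [e]
    linarith
  · rw [hV]
    have := mul_lt_mul_of_pos_left p2 hpp
    have e : 2 / π * -(π * bet) = -(2 * bet) := by field_simp
    rw [e] at this
    linarith
  · exact side
  · intro X h1 h2
    refine key X (2 * y) (by linarith) ?_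
    rw [show 2 * y / 2 = y by ring]
    refine hl _ ?_ ?_
    · rw [abs_div, abs_two]
      linarith
    · intro h3
      have h4 : X = 0 := by linarith
      rw [h4, abs_zero] at h1
      norm_num at h1
  · intro Y h1 h2
    rw [ei] at h2
    exact side Y (by linarith) h2
  · intro X h1 h2
    rw [er] at h2
    rw [ei]
    refine key X (2 * y) (by linarith) ?_
    rw [show 2 * y / 2 = y by ring]
    refine hl _ ?_ ?_
    · rw [abs_div, abs_two]
      linarith
    · intro h3
      apply h2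
      linarith

/-- job D, with weight `0` included -/
theorem path (hS : S_SF) : S_PATH := by
  intro n a hn ha hna
  rcases eq_or_lt_of_le ha with h0 | h0
  · subst h0
    exact path0 hS n (by omega)
  rcases le_or_gt 4 n with h4 | h4
  · exact case_four hS h4 h0
  rcases le_or_gt a (-3) with h3 | h3
  · exact case_b hS hn (by omega) h3
  · have h : (n = 3 ∧ a = -2) ∨ (n = 2 ∧ a = -2) ∨ (n = 3 ∧ a = -1) := by omega
    rcases h with ⟨rfl, rfl⟩ | ⟨rfl, rfl⟩ | ⟨rfl, rfl⟩
    · exact case32 hS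
    · exact case22 hS
    · exact case31 hS

end Pool.Agent.N702.VS
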